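import Pool.Agent.H88.MCR.Stmts

/-!
Row CN2 (MP_ffb5eb_co): a new edge and an independent old edge cross at most once.
-/

set_option autoImplicit false

namespace Pool.MCR

section
variable {L : Type} [LinearOrder L] {n : ℕ} {D : Diag L} {w : ℕ}

theorem cn2_notin (hD : Good n D) (hw : w < n) {z t : ℕ} (hz : z < n) (ht : t < n) (hzt : z ≠ t)
    (hzw : z ≠ w) (htw : t ≠ w) : D.pos w ∉ D.P z t := by
  intro h
  unfold Diag.P at h
  rcases List.mem_cons.1 h with h | h
  · exact hzw (hD.pos_inj w hw z hz h).symm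
  · rcases List.mem_append.1 h with h | h
    · exact hD.notin z hz t ht w hw hzt h
    · exact htw (hD.pos_inj w hw t ht (List.mem_singleton.1 h)).symm

end

theorem cn2_thm (hPRJ : PRJ_S) (hLOC : LOC_S) (hKIT : KIT_S) (hCLA : CLA_S)
    (hCLB : CLB_S) (hOLD : OLD_S) : CN2_S := by
  intro L _ n D w r hD hw hr y hy z hz t ht hyz hyt hzt
  obtain ⟨hK1, hK2, hK3⟩ := hKIT L n D hD
  obtain ⟨hB1, hB2, -, -⟩ := hCLB L n D w r hw
  obtain ⟨-, -, -, -, -, -, hL7⟩ := hLOC L
  -- a small arc at `w` does not cross arcs that do not touch `w`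
  have hsm0 : ∀ (s : Bool) (k j : ℤ) (B0 : Arc L), D.pos w ≠ B0.2.1 → D.pos w ≠ B0.2.2 →
      ¬ Cross ((s, lp (D.pos w) k, lp (D.pos w) j) : Arc (L ×ₗ ℤ)) (l0 B0) := by
    intro s k j B0 h1 h2 h
    exact hL7 (D.pos w) B0.2.1 B0.2.2 k j 0 0 h1 h2 h.2
  have hsm : ∀ (s : Bool) (k j : ℤ) (z t : ℕ), z < n → t < n → z ≠ t → z ≠ w → t ≠ w →
      ∀ B0 ∈ D.A z t, ¬ Cross ((s, lp (D.pos w) k, lp (D.pos w) j) : Arc (L ×ₗ ℤ)) (l0 B0) := by
    intro s k j z t hz ht hzt hzw htw B0 hB0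
    have hn := cn2_notin hD hw hz ht hzt hzw htw
    obtain ⟨-, -, -, h4, -⟩ := hK1 z hz t ht hzt
    obtain ⟨t', c, d⟩ := B0
    obtain ⟨h5, h6, -⟩ := h4 t' c d hB0
    exact hsm0 s k j _ (fun h => hn (by rw [h]; exact h5)) (fun h => hn (by rw [h]; exact h6))
  rw [hB2 z hz t ht]
  by_cases hyw : y = w
  · subst hyw
    rw [hB1]
    intro A hA B hB A' _ B' _ hc _
    exfalso
    rw [List.mem_singleton] at hA
    obtain ⟨B0, hB0, rfl⟩ := List.mem_map.1 hB
    rw [hA] at hc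
    exact hsm true 1 0 z t hz ht hzt (Ne.symm hyz) (Ne.symm hyt) B0 hB0 hc
  rw [hCLA L n D w y r hD hw hy hyw]
  -- arcs with disjoint end points
  have hla : ∀ A0 B0 : Arc L, A0.2.1 ≠ B0.2.1 → A0.2.1 ≠ B0.2.2 → A0.2.2 ≠ B0.2.1 →
      A0.2.2 ≠ B0.2.2 → Cross (la D w r y A0) (l0 B0) → Cross A0 B0 := by
    intro A0 B0 h1 h2 h3 h4 h
    refine ⟨h.1, ?_⟩
    exact (hPRJ L A0.2.1 A0.2.2 B0.2.1 B0.2.2 _ _ 0 0 h1 h2 h3 h4).1 h.2
  -- the case `z = w`
  have key : ∀ t < n, t ≠ w → y ≠ t → AM ((if D.S w y = true then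
      [((false, lp (D.pos w) 1, lp (D.pos w) (- r y)) : Arc (L ×ₗ ℤ))] else []) ++
      (D.A w y).map (la D w r y)) ((D.A w t).map l0) := by
    intro t ht htw hyt
    obtain ⟨-, -, -, hA4, -⟩ := hK1 w hw y hy (Ne.symm hyw)
    obtain ⟨-, -, -, hT4, -⟩ := hK1 w hw t ht (Ne.symm htw)
    have hcom : ∀ c, c ∈ D.P w y → c ∈ D.P w t → c = D.pos w := by
      intro c h1 h2
      rcases hK2 w hw y hy w hw t ht (Ne.symm hyw) (Ne.symm htw) (fun h => hyt h.2)
        (fun h => hyw h.2) c h1 h2 with h | h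
      · exact h.1
      · rcases h.2 with h3 | h3
        · exact absurd h3 hyw
        · exact absurd h3 hyt
    have hdec : ∀ A ∈ ((if D.S w y = true then
        [((false, lp (D.pos w) 1, lp (D.pos w) (- r y)) : Arc (L ×ₗ ℤ))] else []) ++
        (D.A w y).map (la D w r y)), ∀ B ∈ ((D.A w t).map l0), Cross A B →
        B = l0 (D.S w t, D.pos w, D.nx w t) ∧
        ((D.S w y = true ∧ D.S w t = false ∧
          A = ((false, lp (D.pos w) 1, lp (D.pos w) (- r y)) : Arc (L ×ₗ ℤ))) ∨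
        (D.S w y = D.S w t ∧ A = la D w r y (D.S w y, D.pos w, D.nx w y))) := by
      intro A hA B hB hc
      obtain ⟨⟨s', c, d⟩, hB0, rfl⟩ := List.mem_map.1 hB
      obtain ⟨hc1, hd1, hcd, hdw, -, hfst⟩ := hT4 s' c d hB0
      rcases List.mem_append.1 hA with hA | hA
      · by_cases hS : D.S w y = true
        · rw [if_pos hS, List.mem_singleton] at hA
          by_cases hcw : c = D.pos w
          · obtain ⟨h1, h2⟩ := hfst hcw
            subst h1 h2 hcw
            refine ⟨rfl, Or.inl ⟨hS, ?_, hA⟩⟩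
            have h3 := hc.1
            rw [hA] at h3
            exact h3.symm
          · exfalso
            rw [hA] at hc
            exact hsm0 false 1 (- r y) (s', c, d) (fun h => hcw h.symm) (fun h => hdw h.symm) hc
        · rw [if_neg hS] at hA
          exact absurd hA List.not_mem_nil
      · obtain ⟨⟨s, a, b⟩, hA0, rfl⟩ := List.mem_map.1 hA
        obtain ⟨ha1, hb1, hab, hbw, -, hfsA⟩ := hA4 s a b hA0
        by_cases hboth : a = D.pos w ∧ c = D.pos w
        · obtain ⟨haw, hcw⟩ := hboth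
          obtain ⟨h1, h2⟩ := hfst hcw
          obtain ⟨h3, h4⟩ := hfsA haw
          subst h1 h2 hcw h3 h4
          subst haw
          exact ⟨rfl, Or.inr ⟨hc.1, rfl⟩⟩
        · exfalso
          have hnot : ∀ e, e ∈ D.P w y → e ∈ D.P w t → (e = a ∨ e = b) → (e = c ∨ e = d) →
              False := by
            intro e h1 h2 h3 h4
            have h5 := hcom e h1 h2
            apply hboth
            constructor
            · rcases h3 with h3 | h3
              · rw [← h3]; exact h5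
              · exact absurd (h3.symm.trans h5) hbw
            · rcases h4 with h4 | h4
              · rw [← h4]; exact h5
              · exact absurd (h4.symm.trans h5) hdw
          have h6 := hla (s, a, b) (s', c, d)
            (fun h => hnot a ha1 (by have h' : a = c := h; rw [h']; exact hc1) (Or.inl rfl)
              (Or.inl h))
            (fun h => hnot a ha1 (by have h' : a = d := h; rw [h']; exact hd1) (Or.inl rfl)
              (Or.inr h))
            (fun h => hnot b hb1 (by have h' : b = c := h; rw [h']; exact hc1) (Or.inr rfl)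
              (Or.inl h))
            (fun h => hnot b hb1 (by have h' : b = d := h; rw [h']; exact hd1) (Or.inr rfl)
              (Or.inr h)) hc
          exact hD.adj w hw y hy t ht (Ne.symm hyw) (Ne.symm htw) hyt _ hA0 _ hB0 h6
    intro A hA B hB A' hA' B' hB' hc hc'
    obtain ⟨h1, h2⟩ := hdec A hA B hB hc
    obtain ⟨h3, h4⟩ := hdec A' hA' B' hB' hc'
    refine ⟨?_, h1.trans h3.symm⟩
    rcases h2 with ⟨h5, h6, h7⟩ | ⟨h5, h7⟩ <;> rcases h4 with ⟨h8, h9, h10⟩ | ⟨h8, h10⟩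
    · rw [h7, h10]
    · rw [h5, h6] at h8
      exact absurd h8 (by decide)
    · rw [h8, h9] at h5
      exact absurd h5 (by decide)
    · rw [h7, h10]
  by_cases hzw : z = w
  · subst hzw
    exact key t ht (Ne.symm hzt) hyt
  by_cases htw : t = w
  · subst htw
    have hO := ((hOLD (L ×ₗ ℤ)).2.1 ((D.A z t).map l0) ((D.A t z).map l0)
      ((if D.S t y = true then
      [((false, lp (D.pos t) 1, lp (D.pos t) (- r y)) : Arc (L ×ₗ ℤ))] else []) ++
      (D.A t y).map (la D t r y)) ?_ ?_).2.2.2.1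
    · exact hO.2 (key z hz hzw hyz)
    · intro s a b h
      obtain ⟨⟨s0, a0, b0⟩, h1, h2⟩ := List.mem_map.1 h
      obtain ⟨rfl, rfl, rfl⟩ : s0 = s ∧ lp a0 0 = a ∧ lp b0 0 = b := by
        have h3 := Prod.mk.inj h2
        have h4 := Prod.mk.inj h3.2
        exact ⟨h3.1, h4.1, h4.2⟩
      exact List.mem_map.2 ⟨(s0, b0, a0), hD.symA z hz t ht hzt s0 a0 b0 h1, rfl⟩
    · intro s a b h
      obtain ⟨⟨s0, a0, b0⟩, h1, h2⟩ := List.mem_map.1 h
      obtain ⟨rfl, rfl, rfl⟩ : s0 = s ∧ lp a0 0 = a ∧ lp b0 0 = b := by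
        have h3 := Prod.mk.inj h2
        have h4 := Prod.mk.inj h3.2
        exact ⟨h3.1, h4.1, h4.2⟩
      exact List.mem_map.2 ⟨(s0, b0, a0), hD.symA t ht z hz (Ne.symm hzt) s0 a0 b0 h1, rfl⟩
  -- `w` is different from `y, z, t`
  have hdis : ∀ c, c ∈ D.P w y → c ∈ D.P z t → False := by
    intro c h1 h2
    rcases hK2 w hw y hy z hz t ht (Ne.symm hyw) hzt (fun h => hzw h.1.symm)
      (fun h => htw h.1.symm) c h1 h2 with h | h
    · rcases h.2 with h3 | h3
      · exact hzw h3.symm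
      · exact htw h3.symm
    · rcases h.2 with h3 | h3
      · exact hyz h3
      · exact hyt h3
  obtain ⟨-, -, -, hA4, -⟩ := hK1 w hw y hy (Ne.symm hyw)
  obtain ⟨-, -, -, hT4, -⟩ := hK1 z hz t ht hzt
  have hdec : ∀ A ∈ ((if D.S w y = true then
      [((false, lp (D.pos w) 1, lp (D.pos w) (- r y)) : Arc (L ×ₗ ℤ))] else []) ++
      (D.A w y).map (la D w r y)), ∀ B ∈ ((D.A z t).map l0), Cross A B →
      ∃ A0 ∈ D.A w y, ∃ B0 ∈ D.A z t, A = la D w r y A0 ∧ B = l0 B0 ∧ Cross A0 B0 := by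
    intro A hA B hB hc
    obtain ⟨B0, hB0, rfl⟩ := List.mem_map.1 hB
    rcases List.mem_append.1 hA with hA | hA
    · exfalso
      by_cases hS : D.S w y = true
      · rw [if_pos hS, List.mem_singleton] at hA
        rw [hA] at hc
        exact hsm false 1 (- r y) z t hz ht hzt hzw htw B0 hB0 hc
      · rw [if_neg hS] at hA
        exact absurd hA List.not_mem_nil
    · obtain ⟨A0, hA0, rfl⟩ := List.mem_map.1 hA
      refine ⟨A0, hA0, B0, hB0, rfl, rfl, ?_⟩
      obtain ⟨s, a, b⟩ := A0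
      obtain ⟨s', c, d⟩ := B0
      obtain ⟨ha1, hb1, -⟩ := hA4 s a b hA0
      obtain ⟨hc1, hd1, -⟩ := hT4 s' c d hB0
      refine hla _ _ ?_ ?_ ?_ ?_ hc
      · intro h; have h' : a = c := h; exact hdis a ha1 (by rw [h']; exact hc1)
      · intro h; have h' : a = d := h; exact hdis a ha1 (by rw [h']; exact hd1)
      · intro h; have h' : b = c := h; exact hdis b hb1 (by rw [h']; exact hc1)
      · intro h; have h' : b = d := h; exact hdis b hb1 (by rw [h']; exact hd1)
  intro A hA B hB A' hA' B' hB' hc hc'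
  obtain ⟨A0, hA0, B0, hB0, h1, h2, h3⟩ := hdec A hA B hB hc
  obtain ⟨A1, hA1, B1, hB1', h4, h5, h6⟩ := hdec A' hA' B' hB' hc'
  obtain ⟨h7, h8⟩ := hD.two w hw y hy z hz t ht (Ne.symm hyw) hzt (Ne.symm hzw) (Ne.symm htw)
    hyz hyt A0 hA0 B0 hB0 A1 hA1 B1 hB1' h3 h6
  rw [h1, h2, h4, h5, h7, h8]
  exact ⟨rfl, rfl⟩

end Pool.MCR
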