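import Pool.Agent.H88.MCR.Stmts

/-!
Row MAI (MP_ffb5eb_co): every tree is a thrackle in some good diagram.
-/

set_option autoImplicit false

namespace Pool.MCR

theorem mai_thm (hARR : ARR_S) (hRNK : RNK_S) (hCGD : CGD_S) (hCTH : CTH_S) (hCVX : CVX_S) :
    MAI_S := by
  intro p hp n
  have hbase : ∀ m : ℕ, m ≤ 2 →
      ∃ (L : Type) (_ : LinearOrder L) (D : Diag L), Good m D ∧ Thr (parT p) m D := by
    intro m hm
    refine ⟨ℕ, inferInstance, _, hCVX m, ?_⟩
    intro x hx y hy z hz t ht h1 h2 h3 h4 h5 h6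
    omega
  induction n with
  | zero => exact hbase 0 (by omega)
  | succ n ih =>
    by_cases hn : n + 1 ≤ 2
    · exact hbase (n + 1) hn
    obtain ⟨L, hL, D, hD, hT⟩ := ih
    have hu : p n < n := hp n (by omega)
    have hp1 : p 1 = 0 := by
      have := hp 1 le_rfl
      omega
    obtain ⟨w, hw, hwu, hwT⟩ : ∃ w < n, p n ≠ w ∧ (parT p w (p n) ∨ parT p (p n) w) := by
      by_cases h0 : p n = 0
      · refine ⟨1, by omega, by omega, Or.inl ⟨le_rfl, ?_⟩⟩
        rw [h0, hp1]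
      · have h1 := hp (p n) (by omega)
        exact ⟨p (p n), by omega, by omega, Or.inr ⟨by omega, rfl⟩⟩
    let T' : ℕ → ℕ → Prop := fun x y => parT p x y ∧ x < n ∧ y < n
    have hT' : Thr T' n D := by
      intro x hx y hy z hz t ht h1 h2 h3 h4 h5 h6 h7 h8
      exact hT x hx y hy z hz t ht h1 h2 h3 h4 h5 h6 (h7.imp (fun h => h.1) (fun h => h.1))
        (h8.imp (fun h => h.1) (fun h => h.1))
    obtain ⟨L', hL', D', hD', hT2, hF⟩ := hARR L n D T' w (p n) hD hT' hw hu hwu
    obtain ⟨r, hr⟩ := hRNK L' n D' w hD' hw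
    have h9 : T' w (p n) ∨ T' (p n) w :=
      hwT.imp (fun h => ⟨h, hw, hu⟩) (fun h => ⟨h, hu, hw⟩)
    have h10 := hCTH L' n D' w (p n) r T' (fun x y h => h.2) hD' hT2 hw hu hwu h9 hr hF
    refine ⟨L' ×ₗ ℤ, inferInstance, clone D' n w r, hCGD L' n D' w r hD' hw hr, ?_⟩
    have hsub : ∀ x < n + 1, ∀ y, parT p x y → addE T' n (p n) x y := by
      intro x hx y h
      by_cases hxn : x = n
      · right
        exact ⟨hxn, by rw [h.2, hxn]⟩
      · left
        have h11 := hp x h.1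
        have h12 := h.2
        exact ⟨h, by omega, by omega⟩
    intro x hx y hy z hz t ht h1 h2 h3 h4 h5 h6 h7 h8
    exact h10 x hx y hy z hz t ht h1 h2 h3 h4 h5 h6
      (h7.imp (fun h => hsub x hx y h) (fun h => hsub y hy x h))
      (h8.imp (fun h => hsub z hz t h) (fun h => hsub t ht z h))

end Pool.MCR
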